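import Pool.Agent.Q54.KP.StmA

/-!
# Job KP-ABC: counting absorbers
-/

set_option autoImplicit false

namespace Pool.Agent.Q223.KP

open Finset Pool.Agent.Q54.KP

/-! ### counting -/

theorem cnt_pi {ι α : Type} [Fintype ι] [Finite α] (Q : ι → α → Prop) :
    cnt (fun f : ι → α => ∀ i, Q i (f i)) = ∏ i, cnt (Q i) := by
  unfold cnt
  rw [Nat.card_congr (Equiv.subtypePiEquivPi (p := Q)), Nat.card_pi, Nat.cast_prod]

theorem cnt_pi_ge {ι α : Type} [Fintype ι] [Finite α] (Q : ι → α → Prop) (c : ℝ) (hc : 0 ≤ c)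
    (h : ∀ i, c ≤ cnt (Q i)) : c ^ Fintype.card ι ≤ cnt (fun f : ι → α => ∀ i, Q i (f i)) := by
  rw [cnt_pi, ← Finset.card_univ, ← prod_const]
  exact prod_le_prod (fun _ _ => hc) (fun i _ => h i)

theorem cnt_pair {α β : Type} [Finite α] [Finite β] (P : α → Prop) (Q : α → β → Prop) (a b : ℝ)
    (hb : 0 ≤ b) (h1 : a ≤ cnt P) (h2 : ∀ x, P x → b ≤ cnt (Q x)) :
    a * b ≤ cnt (fun p : α × β => P p.1 ∧ Q p.1 p.2) := by
  classical
  have := Fintype.ofFinite α
  rw [cnt_prod (fun x y => P x ∧ Q x y)]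
  calc a * b ≤ cnt P * b := mul_le_mul_of_nonneg_right h1 hb
    _ = ∑ x, (if P x then (1 : ℝ) else 0) * b := by rw [cnt_eq_sum, sum_mul]
    _ ≤ ∑ x, cnt (fun y => P x ∧ Q x y) := sum_le_sum fun x _ => by
      split_ifs with hx
      · rw [one_mul]
        exact (h2 x hx).trans (cnt_mono fun y hy => ⟨hx, hy⟩)
      · rw [zero_mul]
        exact cnt_nonneg _

/-! ### positions -/

section setup

variable {d : ℕ}

/-- the blocks -/
abbrev Bl (x : Fin d → ℕ) : Type := Σ e : Fin d, Fin (x e)

/-- the positions -/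
abbrev Ps (t : ℕ) (x : Fin d → ℕ) : Type := Bl x × (Fin 3 × Fin t)

/-- the class of a position -/
def pc (σ : Fin d → Fin d) {t : ℕ} {x : Fin d → ℕ} (p : Ps t x) : Fin d :=
  if p.2.1 = 2 then σ p.1.1 else p.1.1

theorem card_Bl (x : Fin d → ℕ) : Fintype.card (Bl x) = ∑ e, x e := by
  simp [Bl, Fintype.card_sigma]

theorem card_Ps (t : ℕ) (x : Fin d → ℕ) : Fintype.card (Ps t x) = (∑ e, x e) * (3 * t) := by
  rw [Fintype.card_prod, card_Bl, Fintype.card_prod, Fintype.card_fin, Fintype.card_fin]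

theorem card_fib (σ : Fin d → Fin d) (t : ℕ) (x : Fin d → ℕ) (b : Fin d) :
    (univ.filter (fun p : Ps t x => pc σ p = b)).card =
      ∑ e, x e * (t * (2 * (if b = e then 1 else 0) + (if b = σ e then 1 else 0))) := by
  rw [card_filter, Fintype.sum_prod_type, Fintype.sum_sigma]
  refine sum_congr rfl fun e _ => ?_
  have h : ∀ r : Fin (x e), ∑ p : Fin 3 × Fin t, (if pc σ ((⟨e, r⟩, p) : Ps t x) = b then 1 else 0) =
      t * (2 * (if b = e then 1 else 0) + (if b = σ e then 1 else 0)) := by
    intro r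
    rw [Fintype.sum_prod_type, Fin.sum_univ_three]
    have h0 : ∀ s : Fin t, (if pc σ ((⟨e, r⟩, ((0 : Fin 3), s)) : Ps t x) = b then 1 else 0) =
        (if b = e then 1 else 0) := by
      intro s
      simp [pc, eq_comm]
    have h1 : ∀ s : Fin t, (if pc σ ((⟨e, r⟩, ((1 : Fin 3), s)) : Ps t x) = b then 1 else 0) =
        (if b = e then 1 else 0) := by
      intro s
      simp [pc, eq_comm]
    have h2 : ∀ s : Fin t, (if pc σ ((⟨e, r⟩, ((2 : Fin 3), s)) : Ps t x) = b then 1 else 0) =
        (if b = σ e then 1 else 0) := by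
      intro s
      simp [pc, eq_comm]
    simp only [h0, h1, h2, sum_const, card_univ, Fintype.card_fin, smul_eq_mul]
    ring
  simp only [h, sum_const, card_univ, Fintype.card_fin, smul_eq_mul]

end setup

theorem exists_pi {α β γ : Type} [Fintype α] [Fintype β] [DecidableEq γ] (f : α → γ) (g : β → γ)
    (h : ∀ c, (univ.filter (fun p => f p = c)).card = (univ.filter (fun p => g p = c)).card) :
    ∃ π : α ≃ β, ∀ p, g (π p) = f p := by
  have h1 : ∀ c, Nonempty ({p // f p = c} ≃ {p // g p = c}) := fun c => by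
    apply Fintype.card_eq.1
    rw [Fintype.card_subtype, Fintype.card_subtype]
    exact h c
  refine ⟨(Equiv.sigmaFiberEquiv f).symm.trans
    ((Equiv.sigmaCongrRight fun c => (h1 c).some).trans (Equiv.sigmaFiberEquiv g)), fun p => ?_⟩
  exact ((h1 (f p)).some ⟨p, rfl⟩).2

/-- a disjoint union of sets which can be tiled, in terms of a function on the index set -/
theorem til_fibers {V : Type} [DecidableEq V] {E : Finset (Finset V)} {t : ℕ} {K J : Type}
    [Fintype K] [Fintype J] [DecidableEq J] (A : K → V) (hA : Function.Injective A) (c : K → J)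
    (h : ∀ j, Til E t ((univ.filter (fun k => c k = j)).image A)) : Til E t (univ.image A) := by
  have h1 := til_biUnion (E := E) (t := t) (univ : Finset J)
    (fun j => (univ.filter (fun k => c k = j)).image A) (fun j _ => h j) (by
      intro i _ j _ hij
      rw [disjoint_left]
      intro v hv hv'
      obtain ⟨k, hk, rfl⟩ := mem_image.1 hv
      obtain ⟨k', hk', he⟩ := mem_image.1 hv'
      have := hA he
      subst this
      exact hij ((mem_filter.1 hk).2.symm.trans (mem_filter.1 hk').2))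
  have h2 : (univ : Finset J).biUnion (fun j => (univ.filter (fun k => c k = j)).image A) =
      univ.image A := by
    ext v
    simp
  rwa [h2] at h1

section main

variable {V : Type} [Fintype V] [DecidableEq V] {d : ℕ}

/-- the index set of an absorber -/
abbrev Ix (t m : ℕ) (x y : Fin d → ℕ) : Type := Ps t x ⊕ (Ps t y ⊕ (Ps t y × Fin m))

/-- a block: a copy with the vertices in the right classes -/
def Blk (E : Finset (Finset V)) (t : ℕ) (cl : V → Fin d) (σ : Fin d → Fin d) (e : Fin d)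
    (κ : Fin 3 × Fin t → V) : Prop :=
  Ck E t κ ∧ ∀ i j k : Fin t, ed E (κ (0, i)) (κ (1, j)) (κ (2, k)) ∧ cl (κ (0, i)) = e ∧
    cl (κ (1, j)) = e ∧ cl (κ (2, k)) = σ e

omit [Fintype V] in
theorem Blk.cls {E : Finset (Finset V)} {t : ℕ} {cl : V → Fin d} {σ : Fin d → Fin d} {x : Fin d → ℕ}
    {b : Bl x} {κ : Fin 3 × Fin t → V} (h : Blk E t cl σ b.1 κ) (p : Fin 3 × Fin t) :
    cl (κ p) = pc σ ((b, p) : Ps t x) := by
  obtain ⟨i, s⟩ := p
  have h1 := h.2 s s s
  unfold pc
  fin_cases i
  · exact h1.2.1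
  · exact h1.2.2.1
  · exact h1.2.2.2

/-- the left vertices -/
def lf {N t m : ℕ} {x y : Fin d → ℕ} (S : Fin N → V) (A : Ix t m x y → V) : Fin N ⊕ Ps t x → V :=
  Sum.elim S fun p => A (Sum.inl p)

/-- the tuples which are counted -/
def Tt (E : Finset (Finset V)) {N t m : ℕ} (cl : V → Fin d) (σ : Fin d → Fin d) (x y : Fin d → ℕ)
    (S : Fin N → V) (π : Fin N ⊕ Ps t x ≃ Ps t y) (A : Ix t m x y → V) : Prop :=
  ((∀ b : Bl x, Blk E t cl σ b.1 fun p => A (Sum.inl (b, p))) ∧
    ∀ b : Bl y, Blk E t cl σ b.1 fun p => A (Sum.inr (Sum.inl (b, p)))) ∧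
  ∀ p : Ps t y, lf S A (π.symm p) = A (Sum.inr (Sum.inl p)) ∨
    RS E t (lf S A (π.symm p)) (A (Sum.inr (Sum.inl p))) fun j => A (Sum.inr (Sum.inr (p, j)))

omit [Fintype V] in
/-- absorption -/
theorem absorb {E : Finset (Finset V)} {N t m : ℕ} {cl : V → Fin d} {σ : Fin d → Fin d}
    {x y : Fin d → ℕ} {S : Fin N → V} {π : Fin N ⊕ Ps t x ≃ Ps t y} {A : Ix t m x y → V}
    (hT : Tt E cl σ x y S π A) (hS : Function.Injective S) (hA : Function.Injective A)
    (hAS : ∀ i j, A i ≠ S j) : Til E t (univ.image A) ∧ Til E t (univ.image A ∪ univ.image S) := by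
  obtain ⟨⟨h1, h2⟩, h3⟩ := hT
  have hne : ∀ p : Ps t y, lf S A (π.symm p) ≠ A (Sum.inr (Sum.inl p)) := by
    intro p
    rcases π.symm p with i | q
    · exact fun h => hAS _ _ h.symm
    · intro h
      have := hA h
      cases this
  have h4 : ∀ p : Ps t y, RS E t (lf S A (π.symm p)) (A (Sum.inr (Sum.inl p)))
      fun j => A (Sum.inr (Sum.inr (p, j))) := fun p => (h3 p).resolve_left (hne p)
  constructor
  · refine til_fibers A hA (J := Bl x ⊕ Ps t y) (Sum.elim (fun p => Sum.inl p.1)
      (Sum.elim (fun p => Sum.inr p) fun p => Sum.inr p.1)) ?_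
    rintro (b | p)
    · have h5 : (univ.filter fun k : Ix t m x y => Sum.elim (fun p => Sum.inl p.1)
          (Sum.elim (fun p => Sum.inr p) fun p => Sum.inr p.1) k =
            (Sum.inl b : Bl x ⊕ Ps t y)).image A =
          univ.image fun p => A (Sum.inl (b, p)) := by
        ext v
        simp only [mem_image, mem_filter, mem_univ, true_and]
        constructor
        · rintro ⟨(k | k | k), hk, rfl⟩
          · refine ⟨k.2, ?_⟩
            have : k.1 = b := Sum.inl.inj hk
            rw [← this]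
          · cases hk
          · cases hk
        · rintro ⟨p, rfl⟩
          exact ⟨_, rfl, rfl⟩
      rw [h5]
      exact til_copy (h1 b).1
    · have h5 : (univ.filter fun k : Ix t m x y => Sum.elim (fun p => Sum.inl p.1)
          (Sum.elim (fun p => Sum.inr p) fun p => Sum.inr p.1) k =
            (Sum.inr p : Bl x ⊕ Ps t y)).image A =
          insert (A (Sum.inr (Sum.inl p))) (univ.image fun j => A (Sum.inr (Sum.inr (p, j)))) := by
        ext v
        simp only [mem_image, mem_filter, mem_univ, true_and, mem_insert]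
        constructor
        · rintro ⟨(k | k | k), hk, rfl⟩
          · cases hk
          · left
            have : k = p := Sum.inr.inj hk
            rw [this]
          · right
            have : k.1 = p := Sum.inr.inj hk
            exact ⟨k.2, by rw [← this]⟩
        · rintro (rfl | ⟨j, rfl⟩)
          · exact ⟨_, rfl, rfl⟩
          · exact ⟨Sum.inr (Sum.inr (p, j)), rfl, rfl⟩
      rw [h5]
      exact (h4 p).2.2.2.2
  · have hU : univ.image A ∪ univ.image S = univ.image (Sum.elim A S) := by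
      ext v
      simp only [mem_union, mem_image, mem_univ, true_and, Sum.exists, Sum.elim_inl, Sum.elim_inr]
    rw [hU]
    have hinj : Function.Injective (Sum.elim A S) := by
      rintro (i | i) (j | j) h
      · exact congrArg _ (hA h)
      · exact absurd h (hAS _ _)
      · exact absurd h.symm (hAS _ _)
      · exact congrArg _ (hS h)
    refine til_fibers (Sum.elim A S) hinj (J := Bl y ⊕ Ps t y)
      (Sum.elim (Sum.elim (fun q => Sum.inr (π (Sum.inr q)))
        (Sum.elim (fun p => Sum.inl p.1) fun p => Sum.inr p.1)) fun i => Sum.inr (π (Sum.inl i))) ?_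
    rintro (b | p)
    · have h5 : (univ.filter fun k : Ix t m x y ⊕ Fin N =>
          Sum.elim (Sum.elim (fun q => Sum.inr (π (Sum.inr q)))
            (Sum.elim (fun p => Sum.inl p.1) fun p => Sum.inr p.1))
              (fun i => Sum.inr (π (Sum.inl i))) k =
            (Sum.inl b : Bl y ⊕ Ps t y)).image (Sum.elim A S) =
          univ.image fun p => A (Sum.inr (Sum.inl (b, p))) := by
        ext v
        simp only [mem_image, mem_filter, mem_univ, true_and]
        constructor
        · rintro ⟨((k | k | k) | k), hk, rfl⟩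
          · cases hk
          · refine ⟨k.2, ?_⟩
            have : k.1 = b := Sum.inl.inj hk
            rw [← this]
            rfl
          · cases hk
          · cases hk
        · rintro ⟨p, rfl⟩
          exact ⟨Sum.inl (Sum.inr (Sum.inl (b, p))), rfl, rfl⟩
      rw [h5]
      exact til_copy (h2 b).1
    · have h5 : (univ.filter fun k : Ix t m x y ⊕ Fin N =>
          Sum.elim (Sum.elim (fun q => Sum.inr (π (Sum.inr q)))
            (Sum.elim (fun p => Sum.inl p.1) fun p => Sum.inr p.1))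
              (fun i => Sum.inr (π (Sum.inl i))) k =
            (Sum.inr p : Bl y ⊕ Ps t y)).image (Sum.elim A S) =
          insert (lf S A (π.symm p)) (univ.image fun j => A (Sum.inr (Sum.inr (p, j)))) := by
        ext v
        simp only [mem_image, mem_filter, mem_univ, true_and, mem_insert]
        constructor
        · rintro ⟨((k | k | k) | k), hk, rfl⟩
          · left
            have : π (Sum.inr k) = p := Sum.inr.inj hk
            rw [← this, Equiv.symm_apply_apply]
            rfl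
          · cases hk
          · right
            have : k.1 = p := Sum.inr.inj hk
            exact ⟨k.2, by rw [← this]; rfl⟩
          · left
            have : π (Sum.inl k) = p := Sum.inr.inj hk
            rw [← this, Equiv.symm_apply_apply]
            rfl
        · rintro (rfl | ⟨j, rfl⟩)
          · rcases hq : π.symm p with i | q
            · have : π (Sum.inl i) = p := by rw [← hq, Equiv.apply_symm_apply]
              exact ⟨Sum.inr i, congrArg Sum.inr this, rfl⟩
            · have : π (Sum.inr q) = p := by rw [← hq, Equiv.apply_symm_apply]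
              exact ⟨Sum.inl (Sum.inl q), congrArg Sum.inr this, rfl⟩
          · exact ⟨Sum.inl (Sum.inr (Sum.inr (p, j))), rfl, rfl⟩
      rw [h5]
      exact (h4 p).2.2.2.1

/-- the number of the tuples -/
theorem count_Tt {E : Finset (Finset V)} {N t m : ℕ} {cl : V → Fin d} {σ : Fin d → Fin d}
    {x y : Fin d → ℕ} {S : Fin N → V} {π : Fin N ⊕ Ps t x ≃ Ps t y} {a : Fin d} {ρ β : ℝ}
    (hρ : 0 ≤ ρ) (hβ : 0 ≤ β) (hβ1 : β ≤ 1)
    (hπ : ∀ p, pc σ (π p) = Sum.elim (fun _ => a) (fun q => pc σ q) p) (hSa : ∀ i, cl (S i) = a)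
    (hB : ∀ e, ρ * nn V ^ (3 * t) ≤ cnt (Blk E t cl σ e))
    (hR : ∀ u v, u ≠ v → cl u = cl v → Rc E t (Fin m) β u v) :
    ((ρ * nn V ^ (3 * t)) ^ (∑ e, x e) * (ρ * nn V ^ (3 * t)) ^ (∑ e, y e)) *
      (β * nn V ^ m) ^ ((∑ e, y e) * (3 * t)) ≤
      cnt (fun A : Ix t m x y → V => Tt E cl σ x y S π A) := by
  classical
  have hn : 0 ≤ nn V := Nat.cast_nonneg _
  have h0 : 0 ≤ ρ * nn V ^ (3 * t) := by positivity
  have hm0 : 0 ≤ β * nn V ^ m := by positivity
  -- the blocks
  have h1 : (ρ * nn V ^ (3 * t)) ^ (∑ e, x e) ≤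
      cnt (fun F : Bl x → (Fin 3 × Fin t → V) => ∀ b, Blk E t cl σ b.1 (F b)) := by
    rw [← card_Bl]
    exact cnt_pi_ge (fun (b : Bl x) κ => Blk E t cl σ b.1 κ) _ h0 fun b => hB b.1
  have h2 : (ρ * nn V ^ (3 * t)) ^ (∑ e, y e) ≤
      cnt (fun F : Bl y → (Fin 3 × Fin t → V) => ∀ b, Blk E t cl σ b.1 (F b)) := by
    rw [← card_Bl]
    exact cnt_pi_ge (fun (b : Bl y) κ => Blk E t cl σ b.1 κ) _ h0 fun b => hB b.1
  have h3 := cnt_pair (fun F : Bl x → (Fin 3 × Fin t → V) => ∀ b, Blk E t cl σ b.1 (F b))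
    (fun _ (F : Bl y → (Fin 3 × Fin t → V)) => ∀ b, Blk E t cl σ b.1 (F b)) _ _
    (pow_nonneg h0 _) h1 fun _ _ => h2
  -- the connecting tuples
  let lv : ((Bl x → (Fin 3 × Fin t → V)) × (Bl y → (Fin 3 × Fin t → V))) → Fin N ⊕ Ps t x → V :=
    fun F => Sum.elim S fun p => F.1 p.1 p.2
  have h4 := cnt_pair (fun F : (Bl x → (Fin 3 × Fin t → V)) × (Bl y → (Fin 3 × Fin t → V)) =>
      (∀ b, Blk E t cl σ b.1 (F.1 b)) ∧ ∀ b, Blk E t cl σ b.1 (F.2 b))
    (fun F (G : Ps t y → (Fin m → V)) => ∀ p : Ps t y, lv F (π.symm p) = F.2 p.1 p.2 ∨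
      RS E t (lv F (π.symm p)) (F.2 p.1 p.2) (G p)) _ ((β * nn V ^ m) ^ ((∑ e, y e) * (3 * t)))
    (pow_nonneg hm0 _) h3 (by
      rintro F ⟨hF1, hF2⟩
      rw [← card_Ps]
      refine cnt_pi_ge (fun (p : Ps t y) (g : Fin m → V) => lv F (π.symm p) = F.2 p.1 p.2 ∨
        RS E t (lv F (π.symm p)) (F.2 p.1 p.2) g) _ hm0 fun p => ?_
      by_cases hp : lv F (π.symm p) = F.2 p.1 p.2
      · have h5 : cnt (fun g : Fin m → V => True) ≤ cnt (fun g : Fin m → V =>
            lv F (π.symm p) = F.2 p.1 p.2 ∨ RS E t (lv F (π.symm p)) (F.2 p.1 p.2) g) :=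
          cnt_mono fun g _ => Or.inl hp
        refine le_trans ?_ h5
        rw [cnt_true]
        have h6 : nn (Fin m → V) = nn V ^ m := by
          unfold nn
          rw [Fintype.card_fun, Fintype.card_fin]
          push_cast
          rfl
        rw [h6]
        have h7 : 0 ≤ nn V ^ m := by positivity
        nlinarith
      · have hcl : cl (lv F (π.symm p)) = cl (F.2 p.1 p.2) := by
          have h5 := hπ (π.symm p)
          rw [Equiv.apply_symm_apply] at h5
          rw [(hF2 p.1).cls p.2]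
          change _ = pc σ p
          rw [h5]
          rcases π.symm p with i | q
          · exact hSa i
          · exact (hF1 q.1).cls q.2
        have h5 := hR _ _ hp hcl
        unfold Rc at h5
        rw [Fintype.card_fin] at h5
        exact h5.trans (cnt_mono fun g hg => Or.inr hg))
  refine h4.trans (cnt_le_of_inj (fun w => Sum.elim (fun p => w.1.1 p.1 p.2)
    (Sum.elim (fun p => w.1.2 p.1 p.2) fun p => w.2 p.1 p.2)) ?_ ?_)
  · rintro ⟨⟨F1, F2⟩, G⟩ ⟨⟨F1', F2'⟩, G'⟩ h
    have e1 : F1 = F1' := by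
      funext b p
      exact congrFun h (Sum.inl (b, p))
    have e2 : F2 = F2' := by
      funext b p
      exact congrFun h (Sum.inr (Sum.inl (b, p)))
    have e3 : G = G' := by
      funext b p
      exact congrFun h (Sum.inr (Sum.inr (b, p)))
    rw [e1, e2, e3]
  · rintro ⟨⟨F1, F2⟩, G⟩ h
    exact h

end main

theorem abc : S_CPY → S_NIJ → S_ABC := by
  intro hC hN q t m N X β τ ht hN0 hβ hτ
  obtain ⟨ρ0, hρ0, n1, hcpy⟩ := hC t τ ht hτ
  set ρ : ℝ := min ρ0 1 with hρdef
  have hρ : 0 < ρ := lt_min hρ0 one_pos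
  have hρ1 : ρ ≤ 1 := min_le_right _ _
  set β' : ℝ := min β 1 with hβdef
  have hβ' : 0 < β' := lt_min hβ one_pos
  have hβ1 : β' ≤ 1 := min_le_right _ _
  set P : ℕ := N + 3 * t * X with hP
  set M : ℕ := 3 * t * X + P + P * m with hM
  set γ : ℝ := ρ ^ (X + P) * β' ^ P with hγ
  have hγ0 : 0 < γ := by positivity
  obtain ⟨n2, hn2⟩ := exists_nat_ge (2 * ((M : ℝ) ^ 2 + M * N) / γ)
  refine ⟨γ / 2, by positivity, max n1 (max n2 1), ?_⟩
  intro V _ _ E hV d hd cl σ hR hty a x y hx hxy S hS hSa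
  classical
  have hV1 : n1 ≤ Fintype.card V := (le_max_left _ _).trans hV
  have hV2 : n2 ≤ Fintype.card V := ((le_max_left _ _).trans (le_max_right _ _)).trans hV
  have hV3 : 1 ≤ Fintype.card V := ((le_max_right _ _).trans (le_max_right _ _)).trans hV
  have hn : 0 < nn V := by
    unfold nn
    exact_mod_cast hV3
  -- the bijection
  obtain ⟨π, hπ⟩ := exists_pi (Sum.elim (fun _ : Fin N => a) (fun p : Ps t x => pc σ p))
    (fun p : Ps t y => pc σ p) (by
      intro b
      rw [card_fib, ← hxy b, ← card_fib]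
      have h1 : (univ.filter fun p : Fin N ⊕ Ps t x =>
          Sum.elim (fun _ : Fin N => a) (fun p : Ps t x => pc σ p) p = b).card =
          (univ.filter fun _ : Fin N => a = b).card +
            (univ.filter fun p : Ps t x => pc σ p = b).card := by
        rw [card_filter, card_filter, card_filter, Fintype.sum_sum_type]
        rfl
      rw [h1]
      congr 1
      by_cases hab : b = a
      · rw [if_pos hab, filter_true_of_mem fun _ _ => hab.symm, card_univ, Fintype.card_fin]
      · rw [if_neg hab, filter_false_of_mem fun _ _ h => hab h.symm, card_empty])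
  have hY : (∑ e, y e) * (3 * t) = P := by
    have h1 := Fintype.card_congr π
    rw [Fintype.card_sum, Fintype.card_fin, card_Ps, card_Ps, hx] at h1
    rw [← h1, hP]
    ring
  -- the blocks
  have hB : ∀ e, ρ * nn V ^ (3 * t) ≤ cnt (Blk E t cl σ e) := by
    intro e
    have h1 := hcpy V E (fun u v w => ed E u v w ∧ cl u = e ∧ cl v = e ∧ cl w = σ e)
      (fun _ _ _ h => h.1) hV1 (hty e)
    refine le_trans (mul_le_mul_of_nonneg_right (min_le_left _ _) (by positivity)) h1
  have hR' : ∀ u v, u ≠ v → cl u = cl v → Rc E t (Fin m) β' u v := by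
    intro u v h1 h2
    have h3 := hR u v h1 h2
    unfold Rc at h3 ⊢
    exact (mul_le_mul_of_nonneg_right (min_le_left _ _) (by positivity)).trans h3
  have h1 := count_Tt (m := m) (x := x) (y := y) (S := S) (π := π) (a := a) hρ.le hβ'.le hβ1
    hπ hSa hB hR'
  rw [hx, hY] at h1
  have h2 : γ * nn V ^ M ≤ ((ρ * nn V ^ (3 * t)) ^ X * (ρ * nn V ^ (3 * t)) ^ (∑ e, y e)) *
      (β' * nn V ^ m) ^ P := by
    have e1 : ((ρ * nn V ^ (3 * t)) ^ X * (ρ * nn V ^ (3 * t)) ^ (∑ e, y e)) *
        (β' * nn V ^ m) ^ P = (ρ ^ (X + ∑ e, y e) * β' ^ P) * nn V ^ M := by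
      rw [mul_pow, mul_pow, mul_pow, ← pow_mul, ← pow_mul, ← pow_mul]
      have e2 : 3 * t * ∑ e, y e = P := by rw [← hY]; ring
      rw [e2, hM]
      ring
    rw [e1, hγ]
    have h3 : ρ ^ (X + P) ≤ ρ ^ (X + ∑ e, y e) := by
      apply pow_le_pow_of_le_one hρ.le hρ1
      have : ∑ e, y e ≤ (∑ e, y e) * (3 * t) := Nat.le_mul_of_pos_right _ (by omega)
      omega
    have h4 : 0 ≤ β' ^ P * nn V ^ M := by positivity
    calc ρ ^ (X + P) * β' ^ P * nn V ^ M = ρ ^ (X + P) * (β' ^ P * nn V ^ M) := by ring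
      _ ≤ ρ ^ (X + ∑ e, y e) * (β' ^ P * nn V ^ M) := mul_le_mul_of_nonneg_right h3 h4
      _ = _ := by ring
  -- the degenerate tuples
  have hcard : Fintype.card (Ix t m x y) = M := by
    rw [Fintype.card_sum, Fintype.card_sum, Fintype.card_prod (Ps t y) (Fin m), card_Ps, card_Ps,
      hx, hY, Fintype.card_fin, hM]
    ring
  obtain ⟨hN1, hN2⟩ := hN V (Ix t m x y)
  have hN3 := hN2 (univ.image S)
  rw [hcard] at hN1 hN3
  have hnn : nn (Ix t m x y) = M := by
    unfold nn
    rw [hcard]
  rw [hnn] at hN1 hN3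
  have hSc : ((univ.image S).card : ℝ) = N := by
    rw [card_image_of_injective _ hS, card_univ, Fintype.card_fin]
  rw [hSc] at hN3
  have h5 := cnt_le_and_not_add (fun A : Ix t m x y → V => Tt E cl σ x y S π A)
    (fun A => ¬ Function.Injective A ∨ ∃ i, A i ∈ univ.image S)
  have h6 := cnt_or_le (fun A : Ix t m x y → V => ¬ Function.Injective A)
    (fun A => ∃ i, A i ∈ univ.image S)
  have h7 : (cnt (fun A : Ix t m x y → V => ¬ Function.Injective A) +
      cnt (fun A : Ix t m x y → V => ∃ i, A i ∈ univ.image S)) ≤ γ / 2 * nn V ^ M := by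
    have h8 : (cnt (fun A : Ix t m x y → V => ¬ Function.Injective A) +
      cnt (fun A : Ix t m x y → V => ∃ i, A i ∈ univ.image S)) * nn V ≤
        ((M : ℝ) ^ 2 + M * N) * nn V ^ M := by
      linarith
    have h9 : ((M : ℝ) ^ 2 + M * N) ≤ γ / 2 * nn V := by
      have h10 : 2 * ((M : ℝ) ^ 2 + M * N) / γ ≤ nn V := by
        refine hn2.trans ?_
        unfold nn
        exact_mod_cast hV2
      rw [div_le_iff₀ hγ0] at h10
      linarith
    have h10 : ((M : ℝ) ^ 2 + M * N) * nn V ^ M ≤ (γ / 2 * nn V) * nn V ^ M :=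
      mul_le_mul_of_nonneg_right h9 (by positivity)
    have h11 : (cnt (fun A : Ix t m x y → V => ¬ Function.Injective A) +
      cnt (fun A : Ix t m x y → V => ∃ i, A i ∈ univ.image S)) * nn V ≤
        (γ / 2 * nn V ^ M) * nn V := by
      refine (h8.trans h10).trans (le_of_eq ?_)
      ring
    exact le_of_mul_le_mul_right h11 hn
  have h8 : γ / 2 * nn V ^ M ≤ cnt (fun A : Ix t m x y → V => Tt E cl σ x y S π A ∧
      ¬ (¬ Function.Injective A ∨ ∃ i, A i ∈ univ.image S)) := by
    have := h2.trans h1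
    linarith
  refine h8.trans ?_
  have e : Ix t m x y ≃ Fin M := Fintype.equivFinOfCardEq hcard
  refine cnt_le_of_inj (fun A => A ∘ e.symm) ?_ ?_
  · intro A B h
    funext i
    have := congrFun h (e i)
    simpa using this
  · rintro A ⟨hT, hnd⟩
    rw [not_or, not_not, not_exists] at hnd
    obtain ⟨hinj, hav⟩ := hnd
    have hav' : ∀ i j, A i ≠ S j := fun i j h => hav i (mem_image.2 ⟨j, mem_univ _, h.symm⟩)
    have him : univ.image (A ∘ e.symm) = univ.image A := by
      ext v
      simp only [mem_image, mem_univ, true_and, Function.comp]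
      constructor
      · rintro ⟨i, rfl⟩; exact ⟨_, rfl⟩
      · rintro ⟨i, rfl⟩; exact ⟨e i, by simp⟩
    obtain ⟨k1, k2⟩ := absorb hT hS hinj hav'
    refine ⟨hinj.comp e.symm.injective, fun i j => hav' _ _, ?_, ?_⟩
    · rw [him]; exact k1
    · rw [him]; exact k2

end Pool.Agent.Q223.KP
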